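import Mathlib
import Pool.Agent.LeoD.QuarStmts

/-!
# QTR: quartic fields over a real quadratic field and the quadratic extensions of it (squad LEOD)
-/

set_option autoImplicit false

open NumberField NumberField.InfinitePlace NumberField.mixedEmbedding IsDedekindDomain Module
  MeasureTheory Filter Topology
open Pool.Agent.Helper85_Leo Pool.Agent.LeoK Pool.Agent.LeoG Pool.Agent.LeoC

open scoped Classical

namespace Pool.Agent.LeoD.H69

/-- `LeopoldtAt` is invariant under isomorphism. -/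
theorem leo_of_ringEquiv {K L : Type} [Field K] [NumberField K] [Field L] [NumberField L]
    (e : K ≃+* L) (p : ℕ) [Fact p.Prime] (h : LeopoldtAt K p) : LeopoldtAt L p := by
  intro n ε h1 h2 a m h3 h4
  let f : 𝓞 L ≃+* 𝓞 K := RingOfIntegers.mapRingEquiv e.symm
  let g : (𝓞 L)ˣ →* (𝓞 K)ˣ := Units.map (f : 𝓞 L →* 𝓞 K)
  have hg : ∀ u : (𝓞 L)ˣ, ((g u : (𝓞 K)ˣ) : 𝓞 K) = f (u : 𝓞 L) := fun u => rfl
  have hginj : Function.Injective g := Units.map_injective f.injective
  have hprod : ∀ c : Fin n → ℤ, ∏ i, g (ε i) ^ c i = g (∏ i, ε i ^ c i) := by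
    intro c
    rw [map_prod]
    refine Finset.prod_congr rfl fun i _ => ?_
    rw [map_zpow]
  refine h n (fun i => g (ε i)) ?_ ?_ a m h3 ?_
  · intro i
    obtain ⟨N, hN⟩ := Ideal.mem_radical_iff.1 (h1 i)
    refine Ideal.mem_radical_iff.2 ⟨N, ?_⟩
    rw [Ideal.mem_span_singleton] at hN ⊢
    have := map_dvd f hN
    rw [map_pow, map_sub, map_one, map_natCast] at this
    exact this
  · intro c hc
    apply h2 c
    apply hginj
    rw [map_one, ← hprod]
    exact hc
  · intro N
    filter_upwards [h4 N] with k hk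
    have := map_dvd f hk
    rw [map_pow, map_natCast, map_sub, map_one] at this
    rw [hprod]
    exact this

/-- Invariance of `∃ _ : NumberField K, ¬ LeopoldtAt K 3`. -/
theorem nleo_iff {K L : Type} [Field K] [Field L] (e : K ≃+* L) :
    (∃ _ : NumberField K, ¬ LeopoldtAt K 3) ↔ ∃ _ : NumberField L, ¬ LeopoldtAt L 3 := by
  constructor
  · rintro ⟨hK, h⟩
    have hL : NumberField L := NumberField.of_ringEquiv K L e
    exact ⟨hL, fun h' => h (leo_of_ringEquiv e.symm 3 h')⟩
  · rintro ⟨hL, h⟩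
    have hK : NumberField K := NumberField.of_ringEquiv L K e.symm
    exact ⟨hK, fun h' => h (leo_of_ringEquiv e 3 h')⟩

/-- Quadratic extensions of a real quadratic field which are totally real. -/
theorem quadN_iff {k : Type} [Field k] [NumberField k] (hk2 : finrank ℚ k = 2)
    (hkr : IsTotallyReal k) {K : Type} [Field K] [NumberField K] [Algebra k K] :
    QuadN (∅ : Set {w : InfinitePlace k // IsReal w}) K ↔ finrank ℚ K = 4 ∧ IsTotallyReal K := by
  have htower : finrank ℚ k * finrank k K = finrank ℚ K := Module.finrank_mul_finrank ℚ k K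
  constructor
  · intro h
    have h1 := h.quad
    have h2 := h.cplx
    rw [Set.ncard_empty, add_zero, nrComplexPlaces_eq_zero_iff.2 hkr, mul_zero] at h2
    refine ⟨by rw [← htower, hk2, h1], ?_⟩
    exact nrComplexPlaces_eq_zero_iff.1 h2
  · rintro ⟨h4, hr⟩
    have hq : finrank k K = 2 := by
      rw [hk2, h4] at htower
      omega
    refine ⟨hq, ?_, ?_, ?_⟩
    · intro w
      refine iff_of_true ?_ (Set.notMem_empty _)
      intro v _
      exact IsReal.isUnramified k (IsTotallyReal.isReal v)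
    · rw [Set.ncard_empty, mul_zero, add_zero, ← IsTotallyReal.finrank, ← IsTotallyReal.finrank,
        h4, hk2]
    · rw [Set.ncard_empty, add_zero, IsTotallyReal.nrComplexPlaces_eq_zero,
        IsTotallyReal.nrComplexPlaces_eq_zero]

/-- An intermediate field of the algebraic closure of `k` as a subfield of `Qbar`. -/
noncomputable def tr {k : IntermediateField ℚ (AlgebraicClosure ℚ)}
    (e : AlgebraicClosure k ≃ₐ[k] AlgebraicClosure ℚ) (L : IntermediateField k (AlgebraicClosure k)) :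
    IntermediateField ℚ (AlgebraicClosure ℚ) :=
  (L.map (e : AlgebraicClosure k →ₐ[k] AlgebraicClosure ℚ)).restrictScalars ℚ

theorem le_tr {k : IntermediateField ℚ (AlgebraicClosure ℚ)}
    (e : AlgebraicClosure k ≃ₐ[k] AlgebraicClosure ℚ) (L : IntermediateField k (AlgebraicClosure k)) :
    k ≤ tr e L := by
  intro x hx
  have h := (L.map (e : AlgebraicClosure k →ₐ[k] AlgebraicClosure ℚ)).algebraMap_mem ⟨x, hx⟩
  exact h

theorem tr_inj {k : IntermediateField ℚ (AlgebraicClosure ℚ)}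
    (e : AlgebraicClosure k ≃ₐ[k] AlgebraicClosure ℚ) : Function.Injective (tr e) := by
  intro L L' h
  have h' := IntermediateField.restrictScalars_injective ℚ h
  exact IntermediateField.map_injective _ h'

theorem tr_surj {k : IntermediateField ℚ (AlgebraicClosure ℚ)}
    (e : AlgebraicClosure k ≃ₐ[k] AlgebraicClosure ℚ)
    {K : IntermediateField ℚ (AlgebraicClosure ℚ)} (h : k ≤ K) : ∃ L, tr e L = K := by
  refine ⟨(IntermediateField.extendScalars h).map
    (e.symm : AlgebraicClosure ℚ →ₐ[k] AlgebraicClosure k), ?_⟩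
  ext x
  change x ∈ ((IntermediateField.extendScalars h).map
    (e.symm : AlgebraicClosure ℚ →ₐ[k] AlgebraicClosure k)).map
      (e : AlgebraicClosure k →ₐ[k] AlgebraicClosure ℚ) ↔ _
  rw [IntermediateField.mem_map]
  constructor
  · rintro ⟨y, hy, rfl⟩
    rw [IntermediateField.mem_map] at hy
    obtain ⟨z, hz, rfl⟩ := hy
    have : (e : AlgebraicClosure k →ₐ[k] AlgebraicClosure ℚ)
        ((e.symm : AlgebraicClosure ℚ →ₐ[k] AlgebraicClosure k) z) = z := e.apply_symm_apply z
    rw [this]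
    exact hz
  · intro hx
    refine ⟨e.symm x, ?_, e.apply_symm_apply x⟩
    rw [IntermediateField.mem_map]
    exact ⟨x, hx, rfl⟩

/-- The isomorphism. -/
noncomputable def trE {k : IntermediateField ℚ (AlgebraicClosure ℚ)}
    (e : AlgebraicClosure k ≃ₐ[k] AlgebraicClosure ℚ)
    (L : IntermediateField k (AlgebraicClosure k)) : L ≃+* tr e L :=
  (IntermediateField.intermediateFieldMap e L).toRingEquiv

theorem fr_eq {A B : Type} [Field A] [Field B] [Algebra ℚ A] [Algebra ℚ B] (E : A ≃+* B) :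
    finrank ℚ A = finrank ℚ B :=
  (AlgEquiv.ofRingEquiv (f := E) fun x =>
    RingHom.map_rat_algebraMap (E : A →+* B) x).toLinearEquiv.finrank_eq

theorem mem_iff {k : IntermediateField ℚ (AlgebraicClosure ℚ)} [NumberField k]
    (e : AlgebraicClosure k ≃ₐ[k] AlgebraicClosure ℚ) (hk2 : finrank ℚ k = 2)
    (hkr : IsTotallyReal k) (X : ℝ) (L : IntermediateField k (AlgebraicClosure k)) :
    L ∈ Qx k ∅ X ↔ tr e L ∈ Q4x X := by
  have E := trE e L
  constructor
  · rintro ⟨hL, hq, hd⟩
    obtain ⟨h4, hr⟩ := (quadN_iff hk2 hkr).1 hq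
    have hN : NumberField (tr e L) := NumberField.of_ringEquiv _ _ E
    refine ⟨hN, ?_, ?_, ?_, k, le_tr e L, hk2⟩
    · rw [← h4]
      exact (fr_eq E).symm
    · exact IsTotallyReal.ofRingEquiv E
    · rw [← discr_eq_discr_of_ringEquiv L E]
      exact hd
  · rintro ⟨hN, h4, hr, hd, _⟩
    have hL : NumberField L := NumberField.of_ringEquiv _ _ E.symm
    refine ⟨hL, ?_, ?_⟩
    · rw [quadN_iff hk2 hkr]
      refine ⟨?_, ?_⟩
      · rw [← h4]
        exact fr_eq E
      · exact IsTotallyReal.ofRingEquiv E.symm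
    · rw [discr_eq_discr_of_ringEquiv L E]
      exact hd

theorem algQ : Algebra.IsAlgebraic ℚ (AlgebraicClosure ℚ) := by
  have h := AlgebraicClosure.isAlgebraic ℚ
  have heq : AlgebraicClosure.instAlgebra (R := ℚ) ℚ = DivisionRing.toRatAlgebra :=
    Subsingleton.elim _ _
  rw [heq] at h
  exact h

theorem qtr : QtrStmt := by
  intro k hN hk2 hkr X hfin
  have ha := algQ
  have hcl : IsAlgClosure k (AlgebraicClosure ℚ) :=
    ⟨inferInstance, Algebra.IsAlgebraic.tower_top (K := ℚ) k⟩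
  let e : AlgebraicClosure k ≃ₐ[k] AlgebraicClosure ℚ :=
    IsAlgClosure.equiv k (AlgebraicClosure k) (AlgebraicClosure ℚ)
  have h1 : {K | K ∈ Q4x X ∧ k ≤ K} = tr e '' (Qx k ∅ X) := by
    ext K
    constructor
    · rintro ⟨hK, hkK⟩
      obtain ⟨L, rfl⟩ := tr_surj e hkK
      exact ⟨L, (mem_iff e hk2 hkr X L).2 hK, rfl⟩
    · rintro ⟨L, hL, rfl⟩
      exact ⟨(mem_iff e hk2 hkr X L).1 hL, le_tr e L⟩
  have h2 : {K : IntermediateField ℚ (AlgebraicClosure ℚ) |
      K ∈ Q4x X ∧ k ≤ K ∧ ∃ _ : NumberField K, ¬ LeopoldtAt K 3} =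
      tr e '' {K | K ∈ Qx k ∅ X ∧ ∃ _ : NumberField K, ¬ LeopoldtAt K 3} := by
    ext K
    constructor
    · rintro ⟨hK, hkK, hl⟩
      obtain ⟨L, rfl⟩ := tr_surj e hkK
      exact ⟨L, ⟨(mem_iff e hk2 hkr X L).2 hK, (nleo_iff (trE e L)).2 hl⟩, rfl⟩
    · rintro ⟨L, ⟨hL, hl⟩, rfl⟩
      exact ⟨(mem_iff e hk2 hkr X L).1 hL, le_tr e L, (nleo_iff (trE e L)).1 hl⟩
  refine ⟨?_, ?_, ?_⟩
  · rw [h1]
    exact hfin.image _
  · rw [h1]
    exact Set.ncard_image_of_injective _ (tr_inj e)
  · rw [h2]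
    exact Set.ncard_image_of_injective _ (tr_inj e)

end Pool.Agent.LeoD.H69
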