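import Pool.Agent.LeoD.LocStmts
import Pool.Agent.Helper69_LeoC.Inj

/-!
# LD6: the local densities of the forms at the primes not above 6 (squad LEOD)
-/

set_option autoImplicit false

open NumberField IsDedekindDomain Module
open Pool.Agent.LeoK Pool.Agent.LeoG Pool.Agent.LeoC Pool.Agent.LeoC.H69

open scoped Classical

namespace Pool.Agent.LeoD.H69

variable {k : Type} [Field k] [NumberField k]

lemma ord_zero (vpi : VpiStmt) (p : HeightOneSpectrum (𝓞 k)) (I : Ideal (𝓞 k)) (hI : I ≠ ⊥)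
    (h : ¬ I ≤ p.asIdeal) : ordp p I = 0 := by
  by_contra h0
  apply h
  have h1 := ((vpi k).1 p I 1 hI).2 (Nat.one_le_iff_ne_zero.2 h0)
  rwa [pow_one] at h1

lemma ord_pow (vpi : VpiStmt) (p : HeightOneSpectrum (𝓞 k)) (I : Ideal (𝓞 k)) (hI : I ≠ ⊥)
    (n : ℕ) : ordp p (I ^ n) = n * ordp p I := by
  induction n with
  | zero =>
    rw [pow_zero, zero_mul]
    refine ord_zero vpi p 1 one_ne_zero fun h => p.isPrime.ne_top ?_
    rw [Ideal.one_eq_top, top_le_iff] at h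
    exact h
  | succ n ih =>
    rw [pow_succ, (vpi k).2.1 p _ _ (pow_ne_zero n hI) hI, ih]
    ring

lemma mem_of_ord (vpi : VpiStmt) (p : HeightOneSpectrum (𝓞 k)) (I : Ideal (𝓞 k)) (hI : I ≠ ⊥)
    {x : 𝓞 k} (hx : x ∈ I) {n : ℕ} (h : n ≤ ordp p I) : x ∈ p.asIdeal ^ n :=
  ((vpi k).1 p I n hI).2 h hx

/-- If `m ∈ 𝔠²` and `m` has one more square of `p` than `𝔠²` then `m ∈ (𝔠 p)²`. -/
lemma mem_sq (vpi : VpiStmt) (p : HeightOneSpectrum (𝓞 k)) (cc : Ideal (𝓞 k)) (hcc : cc ≠ ⊥)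
    (m : 𝓞 k) (h1 : m ∈ cc ^ 2) (h2 : m ∈ p.asIdeal ^ (2 * ordp p cc + 2)) :
    m ∈ (cc * p.asIdeal) ^ 2 := by
  obtain ⟨c, hc⟩ : ∃ c, c = ordp p cc := ⟨_, rfl⟩
  rw [← hc] at h2
  have h3 : cc ≤ p.asIdeal ^ c := ((vpi k).1 p cc c hcc).2 hc.le
  obtain ⟨J, hJ⟩ := Ideal.dvd_iff_le.2 h3
  have h4 : ¬ J ≤ p.asIdeal := by
    intro h
    have h5 : cc ≤ p.asIdeal ^ (c + 1) := by
      rw [hJ, pow_succ]
      exact Ideal.mul_mono le_rfl h
    have h6 := ((vpi k).1 p cc (c + 1) hcc).1 h5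
    omega
  have h5 : IsCoprime (p.asIdeal ^ (2 * c + 2)) (J ^ 2) := by
    apply IsCoprime.pow
    rw [Ideal.isCoprime_iff_sup_eq]
    exact p.isMaximal.out.2 _ (lt_of_le_of_ne le_sup_left fun h => h4 (by
      rw [h]
      exact le_sup_right))
  have h6 : (cc * p.asIdeal) ^ 2 = p.asIdeal ^ (2 * c + 2) * J ^ 2 := by
    rw [hJ]
    ring
  rw [h6, ← Ideal.inf_eq_mul_of_isCoprime h5]
  refine ⟨h2, ?_⟩
  have h7 : cc ^ 2 ≤ J ^ 2 := by
    rw [hJ, mul_pow]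
    exact Ideal.mul_le_right
  exact h7 h1

/-- LD6. -/
theorem ld6 (vpi : VpiStmt) (gsc : GscStmt) (h5 : LeoG.Ld5Stmt) (fn : FunStmt) (bfn : BfnStmt) :
    Ld6Stmt := by
  intro k _ _ M h B E p h6
  have h2p : (2 : 𝓞 k) ∉ p.asIdeal := fun h => h6 (by
    have := Ideal.mul_mem_left p.asIdeal (3 : 𝓞 k) h
    norm_num at this
    exact this)
  have h3p : (3 : 𝓞 k) ∉ p.asIdeal := fun h => h6 (by
    have := Ideal.mul_mem_left p.asIdeal (2 : 𝓞 k) h
    norm_num at this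
    exact this)
  obtain ⟨hb0, hbb, hcc, -, -, -⟩ := bfn k B
  have hb : (B.b : 𝓞 k) ≠ 0 := by exact_mod_cast hb0.ne'
  obtain ⟨v1, v2, v3, -, -, v6, v7⟩ := vpi k
  obtain ⟨π, hπ⟩ := v7 p
  obtain ⟨s, hs⟩ : ∃ s, s = ordp p B.bb := ⟨_, rfl⟩
  obtain ⟨c, hc⟩ : ∃ c, c = ordp p B.cc := ⟨_, rfl⟩
  have hspan : Ideal.span {(B.b : 𝓞 k)} ≠ ⊥ := by
    rw [Ne, Ideal.span_singleton_eq_bot]
    exact hb
  have hβ : ordp p (Ideal.span {(B.b : 𝓞 k)}) = s + c := by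
    rw [← B.mul, v2 p _ _ hbb hcc, hs, hc]
  have h3ne : (3 : 𝓞 k) ≠ 0 := by
    norm_num
  have h3span : Ideal.span {(3 : 𝓞 k)} ≠ ⊥ := by
    rw [Ne, Ideal.span_singleton_eq_bot]
    exact h3ne
  have hβ3 : ordp p (Ideal.span {(3 : 𝓞 k)}) = 0 := by
    refine ord_zero vpi p _ h3span ?_
    rw [Ideal.span_singleton_le_iff_mem]
    exact h3p
  have hsq : Ideal.span {(B.b : 𝓞 k) ^ 2} = Ideal.span {(B.b : 𝓞 k)} ^ 2 :=
    (Ideal.span_singleton_pow _ _).symm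
  have hβ2 : ordp p (Ideal.span {(B.b : 𝓞 k) ^ 2}) = 2 * (s + c) := by
    rw [hsq, ord_pow vpi p _ hspan, hβ]
  have hspan2 : Ideal.span {(B.b : 𝓞 k) ^ 2} ≠ ⊥ := by
    rw [hsq]
    exact pow_ne_zero 2 hspan
  let n : Fin 4 → ℕ := ![3 * s + 2 * c, 2 * s + 2 * c, s + 2 * c, 2 * c]
  let a : ℕ := 9 * s + 8 * c + 2
  let T : Set (Q4 (𝓞 k)) := {f | mm f ∉ p.asIdeal ^ 2}
  have hn : ∀ i, n i + 2 ≤ a := by
    intro i
    fin_cases i
    · change 3 * s + 2 * c + 2 ≤ 9 * s + 8 * c + 2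
      omega
    · change 2 * s + 2 * c + 2 ≤ 9 * s + 8 * c + 2
      omega
    · change s + 2 * c + 2 ≤ 9 * s + 8 * c + 2
      omega
    · change 2 * c + 2 ≤ 9 * s + 8 * c + 2
      omega
  have hsum : ∑ i, n i = 6 * s + 8 * c := by
    rw [Fin.sum_univ_four]
    change 3 * s + 2 * c + (2 * s + 2 * c) + (s + 2 * c) + 2 * c = _
    ring
  refine ⟨a, modQ (p.asIdeal ^ a) '' {F | ∃ f ∈ T, ∀ i, F i - π ^ n i * f i ∈ p.asIdeal ^ a},
    ?_, ?_⟩
  · intro F m hF hm hfund _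
    refine ⟨F, ?_, rfl⟩
    have hFn : ∀ i, F i ∈ p.asIdeal ^ n i := by
      intro i
      fin_cases i
      · refine mem_of_ord vpi p _ (mul_ne_zero hspan2 hbb) hF.c0 ?_
        rw [v2 p _ _ hspan2 hbb, hβ2, ← hs]
        change 3 * s + 2 * c ≤ _
        omega
      · refine mem_of_ord vpi p _ hspan2 hF.c1 ?_
        rw [hβ2]
        change 2 * s + 2 * c ≤ _
        omega
      · refine mem_of_ord vpi p _ (mul_ne_zero hspan hcc) hF.c2 ?_
        rw [v2 p _ _ hspan hcc, hβ, ← hc]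
        change s + 2 * c ≤ _
        omega
      · refine mem_of_ord vpi p _ (pow_ne_zero 2 hcc) hF.c3 ?_
        rw [ord_pow vpi p _ hcc, ← hc]
        exact le_rfl
    have hf : ∀ i, ∃ f : 𝓞 k, F i - π ^ n i * f ∈ p.asIdeal ^ a := fun i =>
      hπ.div (n i) a (F i) (hFn i)
    choose f hf using hf
    refine ⟨f, ?_, hf⟩
    intro hmf
    have e1 : mm (fun i => π ^ n i * f i) = π ^ (6 * s + 8 * c) * mm f := by
      have n0 : n 0 = 3 * s + 2 * c := rfl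
      have n1 : n 1 = 2 * s + 2 * c := rfl
      have n2 : n 2 = s + 2 * c := rfl
      have n3 : n 3 = 2 * c := rfl
      simp only [mm, dsc, n0, n1, n2, n3]
      ring
    have e2 : mm F - mm (fun i => π ^ n i * f i) ∈ p.asIdeal ^ a := by
      rw [← Ideal.Quotient.eq, map_mm, map_mm]
      congr 1
      funext i
      exact Ideal.Quotient.eq.2 (hf i)
    have e3 : mm F ∈ p.asIdeal ^ (6 * s + 8 * c + 2) := by
      have e4 : π ^ (6 * s + 8 * c) * mm f ∈ p.asIdeal ^ (6 * s + 8 * c + 2) :=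
        (hπ.iff _ _ _).2 hmf
      have e5 : mm F - π ^ (6 * s + 8 * c) * mm f ∈ p.asIdeal ^ (6 * s + 8 * c + 2) := by
        rw [← e1]
        refine Ideal.pow_le_pow_right ?_ e2
        change 6 * s + 8 * c + 2 ≤ 9 * s + 8 * c + 2
        omega
      have e6 := Ideal.add_mem _ e5 e4
      rwa [sub_add_cancel] at e6
    have hkap : (B.kap : 𝓞 k) = 3 ^ 8 * (B.b : 𝓞 k) ^ 6 := by
      rw [BFr.kap]
      push_cast
      ring
    have hkne : (3 : 𝓞 k) ^ 8 * (B.b : 𝓞 k) ^ 6 ≠ 0 :=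
      mul_ne_zero (pow_ne_zero 8 h3ne) (pow_ne_zero 6 hb)
    have hkord : ordp p (Ideal.span {(3 : 𝓞 k) ^ 8 * (B.b : 𝓞 k) ^ 6}) = 6 * (s + c) := by
      rw [← Ideal.span_singleton_mul_span_singleton, ← Ideal.span_singleton_pow,
        ← Ideal.span_singleton_pow, v2 p _ _ (pow_ne_zero 8 h3span) (pow_ne_zero 6 hspan),
        ord_pow vpi p _ h3span, ord_pow vpi p _ hspan, hβ3, hβ]
      ring
    have e7 : m ∈ p.asIdeal ^ (2 * c + 2) := by
      refine v3 p _ m _ hkne ?_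
      rw [hkord, ← hkap, ← hm]
      refine Ideal.pow_le_pow_right ?_ e3
      omega
    obtain ⟨-, hm2, hm3, -⟩ := fn k B.cc m hcc hfund
    refine hm3 p h2p (mem_sq vpi p B.cc hcc m hm2 ?_)
    rw [← hc]
    exact e7
  · have hg := gsc k p π n a 2 T hπ hn
    have hT : ((modQ (p.asIdeal ^ 2) '' T).ncard : ℝ) ≤ np p ^ 8 * (1 - 1 / np p ^ 2) ^ 2 := by
      rw [← h5 k p h6]
      have hne : p.asIdeal ^ 2 ≠ ⊥ := pow_ne_zero 2 p.ne_bot
      have : Finite (𝓞 k ⧸ p.asIdeal ^ 2) := Ideal.finiteQuotientOfFreeOfNeBot _ hne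
      have h7 : modQ (p.asIdeal ^ 2) '' T ⊆ {v : Q4 (𝓞 k ⧸ p.asIdeal ^ 2) | dsc v ≠ 0} := by
        rintro _ ⟨f, hf, rfl⟩
        intro h0
        apply hf
        have h8 := map_mm (Ideal.Quotient.mk (p.asIdeal ^ 2)) f
        have h9 : mm (fun i => Ideal.Quotient.mk (p.asIdeal ^ 2) (f i)) = 0 := by
          rw [mm, neg_eq_zero]
          exact h0
        rw [h9, Ideal.Quotient.eq_zero_iff_mem] at h8
        exact h8
      have h8 := Set.ncard_le_ncard h7 (Set.toFinite _)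
      exact_mod_cast h8
    have hq : 2 ≤ np p := v6 p
    have hq0 : 0 < np p := by linarith
    have hdE : dE E p = 1 - 1 / np p ^ 2 := by
      rw [dE, if_neg h3p]
    rw [hsum] at hg
    refine hg.trans ?_
    rw [dD, hdE, hβ3, hβ, ← hs]
    have h10 : np p ^ (4 * a) / np p ^ (6 * s + 8 * c + 4 * 2) *
        ((modQ (p.asIdeal ^ 2) '' T).ncard : ℝ) ≤
        np p ^ (4 * a) / np p ^ (6 * s + 8 * c + 4 * 2) *
          (np p ^ 8 * (1 - 1 / np p ^ 2) ^ 2) :=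
      mul_le_mul_of_nonneg_left hT (by positivity)
    refine h10.trans (le_of_eq ?_)
    have h11 : np p ^ (6 * s + 8 * c + 4 * 2) = np p ^ (6 * s + 8 * c) * np p ^ 8 := by
      rw [← pow_add]
    have h12 : np p ^ (8 * 0 + 8 * (s + c)) = np p ^ (6 * s + 8 * c) * np p ^ (2 * s) := by
      rw [← pow_add]
      congr 1
      ring
    rw [h11, h12]
    have h13 : np p ^ (6 * s + 8 * c) ≠ 0 := (pow_pos hq0 _).ne'
    have h14 : np p ^ (2 * s) ≠ 0 := (pow_pos hq0 _).ne'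
    have h15 : np p ^ 8 ≠ 0 := (pow_pos hq0 _).ne'
    rw [div_mul_eq_mul_div, mul_div_assoc, mul_div_assoc]
    congr 1
    field_simp

end Pool.Agent.LeoD.H69
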