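import Pool.Agent.LeoD.LocStmts
import Pool.Agent.Helper69_LeoC.Inj

/-!
# U2F: forms with fundamental discriminant are maximal at the primes above 2 (squad LEOD)
-/

set_option autoImplicit false

open NumberField IsDedekindDomain Module
open Pool.Agent.LeoK Pool.Agent.LeoG Pool.Agent.LeoC Pool.Agent.LeoC.H69

open scoped Classical

namespace Pool.Agent.LeoD.H69

variable {k : Type} [Field k] [NumberField k]

lemma exists_mem_notMem (p l : HeightOneSpectrum (𝓞 k)) (h : l ≠ p) :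
    ∃ s ∈ p.asIdeal, s ∉ l.asIdeal := by
  by_contra hc
  push Not at hc
  have hle : p.asIdeal ≤ l.asIdeal := hc
  have := p.isMaximal.eq_of_le l.isMaximal.ne_top hle
  exact h (HeightOneSpectrum.ext this.symm)

/-- `m` with `X² + t² m ∈ 4 p²` is not fundamental at `p`. -/
lemma not_fund (lcg : LcgStmt) (p : HeightOneSpectrum (𝓞 k)) (cc : Ideal (𝓞 k)) (t X m : 𝓞 k)
    (hcc : cc ≠ ⊥) (hccp : ¬ cc ≤ p.asIdeal) (ht : t ∉ p.asIdeal) (hX : X ∈ p.asIdeal)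
    (h : X ^ 2 + t ^ 2 * m ∈ Ideal.span {(4 : 𝓞 k)} * p.asIdeal ^ 2) (hf : Fund cc m) : False := by
  refine hf.loc p (lcg k (cc * p.asIdeal) m (mul_ne_zero hcc p.ne_bot) fun l => ?_)
  by_cases hl : l = p
  · subst hl
    obtain ⟨τ, hτ, hτl⟩ := Set.not_subset.1 hccp
    refine ⟨τ * t, fun hm => ?_, τ * X, Ideal.mul_mem_mul hτ hX, ?_⟩
    · rcases l.isPrime.mem_or_mem hm with h1 | h1
      · exact hτl h1
      · exact ht h1
    · have h1 : (τ * X) ^ 2 + (τ * t) ^ 2 * m = τ ^ 2 * (X ^ 2 + t ^ 2 * m) := by ring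
      have h2 : Ideal.span {(4 : 𝓞 k)} * (cc * l.asIdeal) ^ 2 =
          cc ^ 2 * (Ideal.span {(4 : 𝓞 k)} * l.asIdeal ^ 2) := by ring
      rw [h1, h2]
      exact Ideal.mul_mem_mul (Ideal.pow_mem_pow hτ 2) h
  · obtain ⟨s, hs, hsl⟩ := exists_mem_notMem p l hl
    obtain ⟨q, hq, hqm⟩ := hf.sq
    refine ⟨s, hsl, q * s, Ideal.mul_mem_mul hq hs, ?_⟩
    have h1 : (q * s) ^ 2 + s ^ 2 * m = s ^ 2 * (q ^ 2 + m) := by ring
    have h2 : Ideal.span {(4 : 𝓞 k)} * (cc * p.asIdeal) ^ 2 =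
        p.asIdeal ^ 2 * (Ideal.span {(4 : 𝓞 k)} * cc ^ 2) := by ring
    rw [h1, h2]
    exact Ideal.mul_mem_mul (Ideal.pow_mem_pow hs 2) hqm

/-- U2F. -/
theorem u2f (lcg : LcgStmt) : U2fStmt := by
  intro k _ _ p cc F u m h2 hcc hccp hu hmm hf x y z w hd
  have ht : (x * w - y * z) ^ 3 * u ∉ p.asIdeal := by
    intro h
    rcases p.isPrime.mem_or_mem h with h1 | h1
    · exact hd (p.isPrime.mem_of_pow_mem 3 h1)
    · exact hu h1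
  obtain ⟨G, hG⟩ : ∃ G, G = gact F x y z w := ⟨_, rfl⟩
  have hmG : mm G = ((x * w - y * z) ^ 3 * u) ^ 2 * m := by
    rw [hG, mm_gact, hmm]
    ring
  have hkey : (G 1 * G 2 + G 0 * G 3) ^ 2 + ((x * w - y * z) ^ 3 * u) ^ 2 * m =
      4 * (7 * G 0 ^ 2 * G 3 ^ 2 - 4 * G 0 * G 1 * G 2 * G 3 + G 0 * G 2 ^ 3 + G 1 ^ 3 * G 3) := by
    rw [← hmG, mm, dsc]
    ring
  rw [← hG]
  have hfin : G 1 * G 2 + G 0 * G 3 ∈ p.asIdeal →
      7 * G 0 ^ 2 * G 3 ^ 2 - 4 * G 0 * G 1 * G 2 * G 3 + G 0 * G 2 ^ 3 + G 1 ^ 3 * G 3 ∈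
        p.asIdeal ^ 2 → False := by
    intro h3 h4
    refine not_fund lcg p cc _ _ m hcc hccp ht h3 ?_ hf
    rw [hkey]
    exact Ideal.mul_mem_mul (Ideal.mem_span_singleton_self _) h4
  have hp2 : ∀ a b c : 𝓞 k, a ∈ p.asIdeal → b ∈ p.asIdeal → c * (a * b) ∈ p.asIdeal ^ 2 := by
    intro a b c ha hb
    rw [sq p.asIdeal]
    exact Ideal.mul_mem_left _ _ (Ideal.mul_mem_mul ha hb)
  constructor
  · rintro ⟨h3, h4⟩
    have h5 : G 3 ∈ p.asIdeal := Ideal.pow_le_self two_ne_zero h4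
    refine hfin (Ideal.add_mem _ (Ideal.mul_mem_left _ _ h3) (Ideal.mul_mem_left _ _ h5)) ?_
    have e : 7 * G 0 ^ 2 * G 3 ^ 2 - 4 * G 0 * G 1 * G 2 * G 3 + G 0 * G 2 ^ 3 + G 1 ^ 3 * G 3 =
        (7 * G 0 ^ 2 * G 3 - 4 * G 0 * G 1 * G 2 + G 1 ^ 3) * G 3 +
          (G 0 * G 2) * (G 2 * G 2) := by ring
    rw [e]
    exact Ideal.add_mem _ (Ideal.mul_mem_left _ _ h4) (hp2 _ _ _ h3 h3)
  · rintro ⟨h3, h4, h5⟩
    refine hfin (Ideal.add_mem _ (Ideal.mul_mem_left _ _ h4) (Ideal.mul_mem_left _ _ h5)) ?_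
    have e : 7 * G 0 ^ 2 * G 3 ^ 2 - 4 * G 0 * G 1 * G 2 * G 3 + G 0 * G 2 ^ 3 + G 1 ^ 3 * G 3 =
        (7 * G 0 ^ 2) * (G 3 * G 3) + (-(4 * G 0 * G 1)) * (G 2 * G 3) +
          (G 0 * G 2) * (G 2 * G 2) + G 1 ^ 2 * (G 1 * G 3) := by ring
    rw [e]
    exact Ideal.add_mem _ (Ideal.add_mem _ (Ideal.add_mem _ (hp2 _ _ _ h5 h5) (hp2 _ _ _ h4 h5))
      (hp2 _ _ _ h4 h4)) (hp2 _ _ _ h3 h5)

end Pool.Agent.LeoD.H69
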