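import Mathlib
import Pool.Agent.LeoD.TowStmts

/-!
# Squad LEOD, part TOW, module CYC: the layers of the cyclotomic extension
-/

set_option autoImplicit false

open NumberField IsDedekindDomain Module Polynomial
open Pool.Agent.Helper85_Leo Pool.Agent.LeoK Pool.Agent.LeoG
open Pool.Agent.Leo3 (Om InLoc FixF)

namespace Pool.Agent.LeoD.H69

/-- outside 3 a cyclotomic extension of 3-power order is unramified. -/
theorem unr_cyc (k C : Type) [Field k] [NumberField k] [Field C] [NumberField C] [Algebra k C]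
    (n : ℕ) (ζ : C) (hζ : ζ ^ 3 ^ n = 1) (hadj : Algebra.adjoin k {ζ} = ⊤)
    (Q : Ideal (𝓞 C)) [Q.IsPrime] (h3 : (3 : 𝓞 C) ∉ Q) : Algebra.IsUnramifiedAt (𝓞 k) Q := by
  have hN : 0 < 3 ^ n := by positivity
  have hint : IsIntegral ℤ ζ := by
    refine ⟨X ^ 3 ^ n - Polynomial.C 1, monic_X_pow_sub_C 1 hN.ne', ?_⟩
    simp [hζ]
  obtain ⟨z, hz⟩ : ∃ z : 𝓞 C, (z : C) = ζ := ⟨⟨ζ, hint⟩, rfl⟩
  have hz1 : z ^ 3 ^ n = 1 := by
    apply RingOfIntegers.ext
    change (z : C) ^ 3 ^ n = 1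
    rw [hz, hζ]
  rw [← not_dvd_differentIdeal_iff]
  intro hdvd
  have h1 : aeval z (derivative (minpoly (𝓞 k) z)) ∈ differentIdeal (𝓞 k) (𝓞 C) := by
    apply aeval_derivative_mem_differentIdeal (𝓞 k) k C z
    rw [← hadj, ← hz]
  have h2 : aeval z (derivative (minpoly (𝓞 k) z)) ∈ Q := Ideal.dvd_iff_le.1 hdvd h1
  have h4 : minpoly (𝓞 k) z ∣ (X ^ 3 ^ n - 1 : (𝓞 k)[X]) := by
    apply minpoly.isIntegrallyClosed_dvd
    · exact Algebra.IsIntegral.isIntegral z
    · simp [hz1]
  obtain ⟨g, hg⟩ := h4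
  have h5 := congrArg (fun p => aeval z (derivative p)) hg
  simp only [derivative_sub, derivative_X_pow, derivative_one, sub_zero, derivative_mul, map_add,
    map_mul, minpoly.aeval, zero_mul, add_zero, map_pow, aeval_X, map_natCast] at h5
  have h6 : ((3 ^ n : ℕ) : 𝓞 C) * z ^ (3 ^ n - 1) ∈ Q := by
    rw [h5]
    exact Ideal.mul_mem_right _ _ h2
  have h7 : ((3 ^ n : ℕ) : 𝓞 C) ∈ Q := by
    have h8 := Ideal.mul_mem_right z _ h6
    rw [mul_assoc, ← pow_succ, Nat.sub_add_cancel hN, hz1, mul_one] at h8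
    exact h8
  push_cast at h7
  exact h3 (Ideal.IsPrime.mem_of_pow_mem inferInstance _ h7)

theorem cyc : CycStmt := by
  intro k M _ _ _ _ _ n hf
  obtain ⟨f⟩ := hf
  haveI : NeZero (3 ^ n) := ⟨by positivity⟩
  haveI : NeZero ((3 ^ n : ℕ) : k) := ⟨by
    push_cast
    exact pow_ne_zero _ (by norm_num)⟩
  let C := CyclotomicField (3 ^ n) k
  letI : Algebra M C := f.toRingHom.toAlgebra
  haveI : IsScalarTower k M C := IsScalarTower.of_algebraMap_eq fun x => (f.commutes x).symm
  haveI hcyc : IsCyclotomicExtension {3 ^ n} k C := CyclotomicField.isCyclotomicExtension _ _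
  haveI : IsAbelianGalois k C := IsCyclotomicExtension.isAbelianGalois {3 ^ n} k C
  haveI : IsAbelianGalois k M := IsAbelianGalois.tower_bot k M C
  haveI : FiniteDimensional k C := IsCyclotomicExtension.finiteDimensional {3 ^ n} k C
  haveI : NumberField C := NumberField.of_module_finite k C
  obtain ⟨ζ, hζ⟩ := hcyc.exists_isPrimitiveRoot (Set.mem_singleton (3 ^ n)) (by positivity)
  have hadj : Algebra.adjoin k {ζ} = ⊤ :=
    IsCyclotomicExtension.adjoin_primitive_root_eq_top (n := 3 ^ n) hζ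
  refine ⟨inferInstance, ⟨n, ?_⟩, ?_⟩
  · intro ψ ρ hρ hroot
    letI : Algebra M Om := ψ.toAlgebra
    haveI : Algebra.IsAlgebraic M C := Algebra.IsAlgebraic.tower_top (K := k) M
    let Ψ : C →ₐ[M] Om := IsAlgClosed.lift
    have hΨ : ∀ x : M, Ψ (f x) = ψ x := fun x => Ψ.commutes x
    have hk : ∀ x : k, ρ (Ψ (algebraMap k C x)) = Ψ (algebraMap k C x) := by
      intro x
      have : algebraMap k C x = f (algebraMap k M x) := (f.commutes x).symm
      rw [this, hΨ]
      exact hρ x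
    have hζ' : ρ (Ψ ζ) = Ψ ζ := by
      apply hroot
      rw [← map_pow, hζ.pow_eq_one, map_one]
    have hall : ∀ x : C, ρ (Ψ x) = Ψ x := by
      intro x
      have hx : x ∈ Algebra.adjoin k {ζ} := by
        rw [hadj]
        trivial
      induction hx using Algebra.adjoin_induction with
      | mem y hy =>
        rw [Set.mem_singleton_iff.1 hy]
        exact hζ'
      | algebraMap r => exact hk r
      | add a b _ _ ha hb => rw [map_add, map_add, ha, hb]
      | mul a b _ _ ha hb => rw [map_mul, map_mul, ha, hb]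
    intro x
    rw [← hΨ x]
    exact hall _
  · intro P hP hP0 h3
    have hPm : P.IsMaximal := hP.isMaximal hP0
    obtain ⟨Q, hQm, hQ⟩ := Ideal.exists_maximal_ideal_liesOver_of_isIntegral (S := 𝓞 C) P
    haveI hQp : Q.IsPrime := hQm.isPrime
    haveI := hQ
    have h3Q : (3 : 𝓞 C) ∉ Q := by
      intro h
      apply h3
      have h4 : (3 : 𝓞 M) ∈ Q.under (𝓞 M) := by
        change algebraMap (𝓞 M) (𝓞 C) 3 ∈ Q
        rw [map_ofNat]
        exact h
      rw [hQ.over]
      exact h4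
    haveI : Algebra.IsUnramifiedAt (𝓞 k) Q := unr_cyc k C n ζ hζ.pow_eq_one hadj Q h3Q
    exact Algebra.IsUnramifiedAt.of_liesOver (R := 𝓞 k) P Q

end Pool.Agent.LeoD.H69
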