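import Mathlib
import Pool.Agent.LeoD.TowStmts

/-!
# Squad LEOD, part TOW, module INGT: assembly of `GoodT`
-/

set_option autoImplicit false

open NumberField IsDedekindDomain Module
open Pool.Agent.Helper85_Leo Pool.Agent.LeoK Pool.Agent.LeoG
open Pool.Agent.Leo3 (Om InLoc FixF)

namespace Pool.Agent.LeoD.H69

theorem ingt (wtl : WtlStmt) (twt : TwtStmt) (cyc : CycStmt) : IngtStmt := by
  intro k K _ _ _ _ _ hK hW
  refine ⟨hW, wtl k K hK hW, ?_, ?_⟩
  · intro M L _ _ _ _ _ _ _ _ _ _ _ j hM hL hloc htame hleoM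
    exact wtl M L hL (twt k K M L j hK hM hL hloc htame hW) hleoM
  · intro M L _ _ _ _ _ _ _ _ _ _ n j hf hM hL hleoM
    obtain ⟨hgal, hloc, hunr⟩ := cyc k M n hf
    haveI := hgal
    refine wtl M L hL (twt k K M L j hK hM hL hloc ?_ hW) hleoM
    intro P _ hP0 h3 hram
    exact absurd (hunr P hP0 h3) hram

end Pool.Agent.LeoD.H69
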