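import Pool.Agent.LeoD.CountStmts
import Pool.Agent.Helper69_LeoC.Inj

/-!
# INJB: the marks of a form of the type and of its mirror image give different forms (squad LEOD)
-/

set_option autoImplicit false

open NumberField NumberField.InfinitePlace NumberField.mixedEmbedding IsDedekindDomain Module
  MeasureTheory Filter Topology
open Pool.Agent.Helper85_Leo Pool.Agent.LeoK Pool.Agent.LeoG Pool.Agent.LeoC Pool.Agent.LeoC.H69

open scoped Classical

namespace Pool.Agent.LeoD.H69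

variable {k : Type} [Field k] [NumberField k]

/-- A mark is the first vector of a basis. -/
lemma compl (B : BFr k) (hb : (B.b : 𝓞 k) ≠ 0) (hcc : B.cc ≠ ⊥) {X Y : 𝓞 k} (hY : Y ∈ B.bb)
    (hprim : ∀ q : HeightOneSpectrum (𝓞 k), ¬ (X ∈ q.asIdeal ∧ Y ∈ q.asIdeal * B.bb)) :
    ∃ y₁ w : 𝓞 k, y₁ ∈ B.cc ∧ (B.b : 𝓞 k) * (X * w) - y₁ * Y = B.b := by
  obtain ⟨J, hJ⟩ : ∃ J : Ideal (𝓞 k),
    J = Ideal.span {(B.b : 𝓞 k) * X} ⊔ Ideal.span {Y} * B.cc := ⟨_, rfl⟩
  have hspan : Ideal.span {(B.b : 𝓞 k)} ≠ ⊥ := by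
    rw [Ne, Ideal.span_singleton_eq_bot]
    exact hb
  have hle : J ≤ Ideal.span {(B.b : 𝓞 k)} := by
    rw [hJ]
    refine sup_le ?_ ?_
    · rw [Ideal.span_singleton_le_span_singleton]
      exact Dvd.intro _ rfl
    · rw [← B.mul]
      refine Ideal.mul_mono ?_ le_rfl
      rw [Ideal.span_singleton_le_iff_mem]
      exact hY
  obtain ⟨J', hJ'⟩ := Ideal.dvd_iff_le.2 hle
  have htop : J' = ⊤ := by
    by_contra hne
    obtain ⟨M, hM, hJM⟩ := Ideal.exists_le_maximal J' hne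
    have hMbot : M ≠ ⊥ := Ring.ne_bot_of_isMaximal_of_not_isField hM (RingOfIntegers.not_isField k)
    have hle2 : J ≤ Ideal.span {(B.b : 𝓞 k)} * M := by
      rw [hJ']
      exact Ideal.mul_mono le_rfl hJM
    refine hprim ⟨M, hM.isPrime, hMbot⟩ ⟨?_, ?_⟩
    · have h1 : (B.b : 𝓞 k) * X ∈ Ideal.span {(B.b : 𝓞 k)} * M := by
        apply hle2
        rw [hJ]
        exact Ideal.mem_sup_left (Ideal.mem_span_singleton_self _)
      rw [Ideal.mem_span_singleton_mul] at h1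
      obtain ⟨z, hz, h2⟩ := h1
      have h3 : z = X := mul_left_cancel₀ hb h2
      change X ∈ M
      rw [← h3]
      exact hz
    · have h1 : Ideal.span {Y} * B.cc ≤ M * B.bb * B.cc := by
        have h2 : M * B.bb * B.cc = Ideal.span {(B.b : 𝓞 k)} * M := by
          rw [← B.mul]
          ring
        rw [h2]
        refine le_trans ?_ hle2
        rw [hJ]
        exact le_sup_right
      have h2 : M * B.bb ∣ Ideal.span {Y} :=
        (mul_dvd_mul_iff_right hcc).1 (Ideal.dvd_iff_le.2 h1)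
      change Y ∈ M * B.bb
      exact Ideal.dvd_iff_le.1 h2 (Ideal.mem_span_singleton_self Y)
  have h1 : (B.b : 𝓞 k) ∈ J := by
    rw [hJ', htop, Ideal.mul_top]
    exact Ideal.mem_span_singleton_self _
  rw [hJ, Submodule.mem_sup] at h1
  obtain ⟨u, hu, v, hv, huv⟩ := h1
  rw [Ideal.mem_span_singleton'] at hu
  obtain ⟨w, hw⟩ := hu
  rw [Ideal.mem_span_singleton_mul] at hv
  obtain ⟨z, hz, hzv⟩ := hv
  refine ⟨-z, w, B.cc.neg_mem hz, ?_⟩
  linear_combination hw + hzv + huv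

section maps

variable {A : Type} [CommRing A]

lemma gact_diag (v : Q4 A) (x y z w b : A) :
    gact (gact v x y z w) 1 0 0 b = gact v x (y * b) z (w * b) := by
  have e0 : gact v x y z w 0 = gval v x z := rfl
  have e1 : gact v x y z w 1 =
    3 * v 0 * x ^ 2 * y + v 1 * (x ^ 2 * w + 2 * x * y * z) + v 2 * (2 * x * z * w + y * z ^ 2) +
      3 * v 3 * z ^ 2 * w := rfl
  have e2 : gact v x y z w 2 =
    3 * v 0 * x * y ^ 2 + v 1 * (2 * x * y * w + y ^ 2 * z) + v 2 * (x * w ^ 2 + 2 * y * z * w) +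
      3 * v 3 * z * w ^ 2 := rfl
  have e3 : gact v x y z w 3 = gval v y w := rfl
  funext i
  fin_cases i
  · change gval (gact v x y z w) 1 0 = gval v x z
    rw [gval, e0]
    ring
  · change 3 * gact v x y z w 0 * 1 ^ 2 * 0 + gact v x y z w 1 * (1 ^ 2 * b + 2 * 1 * 0 * 0) +
      gact v x y z w 2 * (2 * 1 * 0 * b + 0 * 0 ^ 2) + 3 * gact v x y z w 3 * 0 ^ 2 * b =
        3 * v 0 * x ^ 2 * (y * b) + v 1 * (x ^ 2 * (w * b) + 2 * x * (y * b) * z) +
          v 2 * (2 * x * z * (w * b) + (y * b) * z ^ 2) + 3 * v 3 * z ^ 2 * (w * b)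
    rw [e1]
    ring
  · change 3 * gact v x y z w 0 * 1 * 0 ^ 2 + gact v x y z w 1 * (2 * 1 * 0 * b + 0 ^ 2 * 0) +
      gact v x y z w 2 * (1 * b ^ 2 + 2 * 0 * 0 * b) + 3 * gact v x y z w 3 * 0 * b ^ 2 =
        3 * v 0 * x * (y * b) ^ 2 + v 1 * (2 * x * (y * b) * (w * b) + (y * b) ^ 2 * z) +
          v 2 * (x * (w * b) ^ 2 + 2 * (y * b) * z * (w * b)) + 3 * v 3 * z * (w * b) ^ 2
    rw [e2]
    ring
  · change gval (gact v x y z w) 0 b = gval v (y * b) (w * b)
    rw [gval, e3]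
    simp only [gval]
    ring

end maps

/-- The size of the first basis vector of a form obtained by a change of basis of determinant 1
with denominators. -/
lemma size_eq (hka : HkaStmt) (b : 𝓞 k) (hb : b ≠ 0) (g g' : Q4 (𝓞 k)) (hm : mm g ≠ 0)
    (hm' : mm g' ≠ 0) (X y₁ Y w : 𝓞 k) (hdet : b * (X * w) - y₁ * Y = b)
    (hg' : ∀ i, (g' i : k) = gact (fun j => (g j : k)) (X : k) ((y₁ : k) / b) (Y : k) (w : k) i) :
    sz (em g') = hk g X Y := by
  have hbk : (b : k) ≠ 0 := by exact_mod_cast hb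
  have hgg : gact g' 1 0 0 b = gact g X y₁ Y (w * b) := by
    funext i
    apply RingOfIntegers.coe_injective
    have h1 := map_gact (algebraMap (𝓞 k) k) g' 1 0 0 b i
    have h2 := map_gact (algebraMap (𝓞 k) k) g X y₁ Y (w * b) i
    have h3 : (fun j => algebraMap (𝓞 k) k (g' j)) =
        gact (fun j => (g j : k)) (X : k) ((y₁ : k) / b) (Y : k) (w : k) := funext hg'
    rw [h3, map_one, map_zero, gact_diag] at h1
    rw [div_mul_cancel₀ _ hbk] at h1
    refine h1.trans ?_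
    rw [map_mul] at h2
    exact h2.symm
  obtain ⟨-, -, -, h4, -, h6⟩ := hka k g' hm'
  obtain ⟨-, -, -, h4', -, -⟩ := hka k g hm
  rw [h6]
  funext v
  have e1 := h4 1 0 0 b 1 0 v (by rw [one_mul, mul_zero, sub_zero]; exact hb)
  have hdet' : X * (w * b) - y₁ * Y = b := by linear_combination hdet
  have e2 := h4' X y₁ Y (w * b) 1 0 v (by rw [hdet']; exact hb)
  rw [hdet'] at e2
  rw [hgg, one_mul, mul_zero, sub_zero] at e1
  rw [e2] at e1
  simp only [mul_one, mul_zero, add_zero, zero_mul] at e1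
  exact e1.symm

/-- A mark gives a normalised form of the type for every element of `𝔠`. -/
lemma mark_form' (hka : HkaStmt) (evs : EvsStmt) (tyi : TyiStmt) (B : BFr k) (M : ℕ)
    (h : HeightOneSpectrum (𝓞 k) → Q4 (𝓞 k)) (Φ : CFrame k) (T η : ℝ) (g : Q4 (𝓞 k))
    (htyp : Typ B M h g) (hirr : GIrr g) (hm : mm g ≠ 0) (hb : (B.b : 𝓞 k) ≠ 0) (X Y : 𝓞 k)
    (hp : (X, Y) ∈ MksB B Φ T η g) (y₀ w₀ : 𝓞 k) (hy₀ : y₀ ∈ B.cc)
    (hdet : (B.b : 𝓞 k) * (X * w₀) - y₀ * Y = B.b) (s : 𝓞 k) (hs : s ∈ B.cc) :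
    ∃ (t : 𝓞 k) (g' : Q4 (𝓞 k)), g' ∈ WsetB B M h Φ T η (mm g) ∧
      ∀ i, (g' i : k) = gact (fun j => (g j : k)) (X : k)
        ((y₀ : k) / B.b + ((s : k) + B.b * t) / B.b * X) (Y : k)
        ((w₀ : k) + ((s : k) + B.b * t) / B.b * Y) i := by
  obtain ⟨hYb, hprim, hF, hT, hv⟩ := hp
  simp only at hYb hprim hF hT hv
  have hbk : (B.b : k) ≠ 0 := by
    have h1 : ((B.b : 𝓞 k) : k) ≠ 0 := by exact_mod_cast hb
    exact h1
  have hbb : ((B.b : 𝓞 k) : k) = (B.b : k) := rfl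
  obtain ⟨u, hu⟩ : ∃ u : 𝓞 k, (B.b : 𝓞 k) * u = s * Y := by
    have h1 : s * Y ∈ Ideal.span {(B.b : 𝓞 k)} := by
      rw [← B.mul, mul_comm s Y]
      exact Ideal.mul_mem_mul hYb hs
    rw [Ideal.mem_span_singleton] at h1
    obtain ⟨u, hu⟩ := h1
    exact ⟨u, hu.symm⟩
  have huk : (B.b : k) * (u : k) = (s : k) * (Y : k) := by
    have := congrArg (fun t : 𝓞 k => (t : k)) hu
    simpa using this
  have hbcc : (B.b : 𝓞 k) ∈ B.cc := by
    have h1 : Ideal.span {(B.b : 𝓞 k)} ≤ B.cc := by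
      rw [← B.mul]
      exact (Ideal.mul_le_right : B.bb * B.cc ≤ B.cc)
    exact h1 (Ideal.mem_span_singleton_self _)
  have hne : gval g X Y ≠ 0 := by
    intro h0
    obtain ⟨h1, h2⟩ := hirr X Y h0
    rw [h1, h2] at hdet
    apply hb
    rw [← hdet]
    ring
  obtain ⟨ev1, ev2, -, ev4, ev5, -⟩ := evs k
  -- the first form
  obtain ⟨g₁, -, hg₁⟩ := (tyi k B M h g htyp).2 X Y (y₀ + s * X) (w₀ + u) hYb
    (B.cc.add_mem hy₀ (B.cc.mul_mem_right _ hs)) (by linear_combination hdet + X * hu)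
  obtain ⟨t, ht⟩ := exists_shift (k := k) (em g₁ 1 / (3 * em g₁ 0) : MS k)
  have hdet2 : (B.b : 𝓞 k) * (X * (w₀ + u + t * Y)) - (y₀ + s * X + B.b * t * X) * Y = B.b := by
    linear_combination hdet + X * hu
  obtain ⟨g', htyp', hg'⟩ := (tyi k B M h g htyp).2 X Y (y₀ + s * X + B.b * t * X)
    (w₀ + u + t * Y) hYb (B.cc.add_mem (B.cc.add_mem hy₀ (B.cc.mul_mem_right _ hs))
      (B.cc.mul_mem_right _ (B.cc.mul_mem_right _ hbcc))) hdet2
  have hmm : mm g' = mm g := by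
    apply RingOfIntegers.coe_injective
    have h1 := map_mm (algebraMap (𝓞 k) k) g'
    have h2 := map_mm (algebraMap (𝓞 k) k) g
    have h3 : (fun j => algebraMap (𝓞 k) k (g' j)) =
        gact (fun j => (g j : k)) (X : k) (((y₀ + s * X + B.b * t * X : 𝓞 k) : k) / B.b) (Y : k)
          ((w₀ + u + t * Y : 𝓞 k) : k) := funext hg'
    rw [h3, mm_gact] at h1
    have h4 : (X : k) * ((w₀ + u + t * Y : 𝓞 k) : k) -
        ((y₀ + s * X + B.b * t * X : 𝓞 k) : k) / B.b * (Y : k) = 1 := by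
      have h5 := congrArg (fun t : 𝓞 k => (t : k)) hdet2
      simp only [map_mul, map_sub, map_add, map_natCast] at h5 ⊢
      field_simp
      linear_combination h5
    rw [h4, one_pow, one_mul] at h1
    exact h1.trans h2.symm
  have hg'0 : g' 0 = gval g X Y := by
    apply RingOfIntegers.coe_injective
    have h1 := map_gval (algebraMap (𝓞 k) k) g X Y
    exact (hg' 0).trans h1.symm
  have hg₁0 : g₁ 0 = gval g X Y := by
    apply RingOfIntegers.coe_injective
    have h1 := map_gval (algebraMap (𝓞 k) k) g X Y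
    exact (hg₁ 0).trans h1.symm
  have hg'1 : g' 1 = g₁ 1 + 3 * t * g₁ 0 := by
    apply RingOfIntegers.coe_injective
    have h1 := hg' 1
    have h2 := hg₁ 1
    have h3 := hg₁ 0
    have h4 : ((y₀ + s * X + B.b * t * X : 𝓞 k) : k) / B.b =
        ((y₀ + s * X : 𝓞 k) : k) / B.b + (t : k) * (X : k) := by
      simp only [map_mul, map_add, map_natCast]
      field_simp
    have h5 : ((w₀ + u + t * Y : 𝓞 k) : k) = ((w₀ + u : 𝓞 k) : k) + (t : k) * (Y : k) := by
      simp only [map_mul, map_add]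
    rw [h4, h5, gact_one_shift, ← h2, ← h3] at h1
    refine h1.trans ?_
    simp only [map_mul, map_add, map_ofNat]
  have hsz : sz (em g') = hk g X Y :=
    size_eq hka (B.b : 𝓞 k) hb g g' hm (by rw [hmm]; exact hm) X _ Y _ hdet2 hg'
  refine ⟨t, g', ⟨⟨hmm, ?_, ?_, ?_, ?_, ?_⟩, htyp'⟩, ?_⟩
  · rw [hg'0]
    exact hne
  · have h5 : (em g' 1 / (3 * em g' 0) : MS k) =
        em g₁ 1 / (3 * em g₁ 0) + mixedEmbedding k (t : k) := by
      apply ev5
      intro v
      have e3 : ev v (3 : MS k) = 3 := by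
        have := ev4 v 3
        exact_mod_cast this
      have hA : ev v (em g₁ 0) ≠ 0 := by
        show ev v (mixedEmbedding k ((g₁ 0 : 𝓞 k) : k)) ≠ 0
        rw [ev1, hg₁0]
        intro h
        apply hne
        have := (map_eq_zero v.embedding).1 h
        exact_mod_cast this
      have h6 : ev v (em g' 1) =
          ev v (em g₁ 1) + 3 * ev v (mixedEmbedding k (t : k)) * ev v (em g₁ 0) := by
        show ev v (mixedEmbedding k ((g' 1 : 𝓞 k) : k)) =
          ev v (mixedEmbedding k ((g₁ 1 : 𝓞 k) : k)) +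
            3 * ev v (mixedEmbedding k (t : k)) * ev v (mixedEmbedding k ((g₁ 0 : 𝓞 k) : k))
        rw [ev1, ev1, ev1, ev1, hg'1]
        push_cast
        simp only [map_add, map_mul, map_ofNat]
      have h7 : em g' 0 = em g₁ 0 := by
        show mixedEmbedding k ((g' 0 : 𝓞 k) : k) = mixedEmbedding k ((g₁ 0 : 𝓞 k) : k)
        rw [hg'0, hg₁0]
      rw [(ev2 v _ _).2.2.2, (ev2 v _ _).2.1, (ev2 v _ _).1, (ev2 v _ _).2.2.2,
        (ev2 v _ _).2.1, e3, h6, h7]
      field_simp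
    rw [h5]
    exact ht
  · rw [hsz]
    exact hF
  · rw [hsz]
    exact hT
  · intro v
    rw [hmm, hg'0]
    exact hv v
  · intro i
    rw [hg' i]
    have h4 : ((y₀ + s * X + B.b * t * X : 𝓞 k) : k) / B.b =
        (y₀ : k) / B.b + ((s : k) + B.b * t) / B.b * X := by
      simp only [map_mul, map_add, map_natCast]
      field_simp
      ring
    have h5 : ((w₀ + u + t * Y : 𝓞 k) : k) = (w₀ : k) + ((s : k) + B.b * t) / B.b * Y := by
      simp only [map_mul, map_add]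
      field_simp
      linear_combination huk
    rw [h4, h5]

/-- A form without zeros over the integers has no zeros over the field. -/
lemma irr_field (v : Q4 (𝓞 k)) (hirr : GIrr v) : GIrr (fun j => (v j : k)) := by
  intro X Y h0
  obtain ⟨a, d, hd, rfl⟩ := IsFractionRing.div_surjective (A := 𝓞 k) X
  obtain ⟨b, e, he, rfl⟩ := IsFractionRing.div_surjective (A := 𝓞 k) Y
  obtain ⟨a', ha'⟩ : ∃ a' : k, a' = algebraMap (𝓞 k) k a := ⟨_, rfl⟩
  obtain ⟨b', hb'⟩ : ∃ a' : k, a' = algebraMap (𝓞 k) k b := ⟨_, rfl⟩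
  obtain ⟨d', hd'⟩ : ∃ a' : k, a' = algebraMap (𝓞 k) k d := ⟨_, rfl⟩
  obtain ⟨e', he'⟩ : ∃ a' : k, a' = algebraMap (𝓞 k) k e := ⟨_, rfl⟩
  have hd0 : d' ≠ 0 := by
    rw [hd']
    exact (map_ne_zero_iff _ (FaithfulSMul.algebraMap_injective (𝓞 k) k)).2
      (nonZeroDivisors.ne_zero hd)
  have he0 : e' ≠ 0 := by
    rw [he']
    exact (map_ne_zero_iff _ (FaithfulSMul.algebraMap_injective (𝓞 k) k)).2
      (nonZeroDivisors.ne_zero he)
  rw [← ha', ← hb', ← hd', ← he'] at h0 ⊢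
  have h3 : gval v (a * e) (b * d) = 0 := by
    apply FaithfulSMul.algebraMap_injective (𝓞 k) k
    rw [map_gval, map_mul, map_mul, map_zero, ← ha', ← hb', ← hd', ← he']
    have h4 : gval (fun j => (v j : k)) (a' * e') (b' * d') =
        (d' * e') ^ 3 * gval (fun j => (v j : k)) (a' / d') (b' / e') := by
      simp only [gval]
      field_simp
    rw [h0, mul_zero] at h4
    exact h4
  obtain ⟨h5, h6⟩ := hirr _ _ h3
  have h5' : a' * e' = 0 := by rw [ha', he', ← map_mul, h5, map_zero]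
  have h6' : b' * d' = 0 := by rw [hb', hd', ← map_mul, h6, map_zero]
  rw [(mul_eq_zero.1 h5').resolve_right he0, (mul_eq_zero.1 h6').resolve_right hd0]
  simp

/-- OBG for the action. -/
lemma orb_k (obg : ObgStmt) (v : Q4 (𝓞 k)) (hirr : GIrr v)
    (hsq : ∀ x : k, x ^ 2 ≠ -((mm v : 𝓞 k) : k)) (x y z w x' y' z' w' : k)
    (h1 : (x * w - y * z) ^ 2 = 1) (h2 : (x' * w' - y' * z') ^ 2 = 1)
    (h : gact (fun j => (v j : k)) x y z w = gact (fun j => (v j : k)) x' y' z' w') :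
    x = x' ∧ z = z' ∧ x * w - y * z = x' * w' - y' * z' := by
  have hsq' : ∀ x : k, x ^ 2 ≠ -mm (fun j => (v j : k)) := by
    intro x hx
    apply hsq x
    rw [hx]
    exact congrArg Neg.neg (map_mm (algebraMap (𝓞 k) k) v).symm
  refine obg k (fun j => (v j : k)) (irr_field v hirr) hsq' x y z w x' y' z' w' 0 h1 h2 ?_
  intro X Y
  rw [zero_mul, add_zero, gval_gact, gval_gact, h]

lemma shift_inj (v : Q4 k) (x y z w t t' : k) (h0 : gval v x z ≠ 0)
    (h : gact v x (y + t * x) z (w + t * z) 1 = gact v x (y + t' * x) z (w + t' * z) 1) :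
    t = t' := by
  rw [gact_one_shift, gact_one_shift, gact_zero] at h
  have h1 : 3 * (t - t') * gval v x z = 0 := by linear_combination h
  have h2 := (mul_eq_zero.1 h1).resolve_right h0
  have h3 : t - t' = 0 := (mul_eq_zero.1 h2).resolve_left three_ne_zero
  exact sub_eq_zero.1 h3

/-- The forms of one mark and its translations. -/
structure Dat (B : BFr k) (M : ℕ) (h : HeightOneSpectrum (𝓞 k) → Q4 (𝓞 k)) (Φ : CFrame k)
    (T η : ℝ) (g : Q4 (𝓞 k)) where
  y : MksB B Φ T η g → k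
  w : MksB B Φ T η g → k
  t : MksB B Φ T η g → (𝓞 k ⧸ B.bb) → k
  f : MksB B Φ T η g → (𝓞 k ⧸ B.bb) → Q4 (𝓞 k)
  det : ∀ p, (p.1.1 : k) * w p - y p * (p.1.2 : k) = 1
  inj : ∀ p c c', t p c = t p c' → c = c'
  mem : ∀ p c, f p c ∈ WsetB B M h Φ T η (mm g)
  eq : ∀ p c, (fun i => (f p c i : k)) = gact (fun j => (g j : k)) (p.1.1 : k)
    (y p + t p c * (p.1.1 : k)) (p.1.2 : k) (w p + t p c * (p.1.2 : k))
  ne : ∀ p : MksB B Φ T η g, gval (fun j => (g j : k)) (p.1.1 : k) (p.1.2 : k) ≠ 0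

lemma exists_dat (hka : HkaStmt) (evs : EvsStmt) (tyi : TyiStmt) (gnl : GnlStmt) (bfn : BfnStmt)
    (B : BFr k) (M : ℕ) (h : HeightOneSpectrum (𝓞 k) → Q4 (𝓞 k)) (Φ : CFrame k) (T η : ℝ)
    (g : Q4 (𝓞 k)) (htyp : Typ B M h g) (hirr : GIrr g) (hm : mm g ≠ 0) :
    Nonempty (Dat B M h Φ T η g) := by
  obtain ⟨hb0, hbb, hcc, -, -, -⟩ := bfn k B
  have hb : (B.b : 𝓞 k) ≠ 0 := by exact_mod_cast hb0.ne'
  have hbk : (B.b : k) ≠ 0 := by exact_mod_cast hb0.ne'
  obtain ⟨a, ha, hgn, -⟩ := gnl k B.cc B.bb hcc hbb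
  have hA : ∀ p : MksB B Φ T η g, ∃ y₁ w : 𝓞 k, y₁ ∈ B.cc ∧
      (B.b : 𝓞 k) * (p.1.1 * w) - y₁ * p.1.2 = B.b := fun p =>
    compl B hb hcc p.2.1 p.2.2.1
  choose y w hy hdet using hA
  have hr : ∀ c : 𝓞 k ⧸ B.bb, ∃ r : 𝓞 k, Ideal.Quotient.mk B.bb r = c := fun c =>
    Ideal.Quotient.mk_surjective c
  choose r hr using hr
  have hC : ∀ (p : MksB B Φ T η g) (c : 𝓞 k ⧸ B.bb), ∃ (t : 𝓞 k) (g' : Q4 (𝓞 k)),
      g' ∈ WsetB B M h Φ T η (mm g) ∧
      ∀ i, (g' i : k) = gact (fun j => (g j : k)) (p.1.1 : k)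
        ((y p : k) / B.b + (((r c * a : 𝓞 k) : k) + B.b * t) / B.b * p.1.1) (p.1.2 : k)
        ((w p : k) + (((r c * a : 𝓞 k) : k) + B.b * t) / B.b * p.1.2) i := fun p c =>
    mark_form' hka evs tyi B M h Φ T η g htyp hirr hm hb p.1.1 p.1.2 p.2 (y p) (w p) (hy p)
      (hdet p) (r c * a) (B.cc.mul_mem_left _ ha)
  choose t f hf1 hf2 using hC
  refine ⟨⟨fun p => (y p : k) / B.b, fun p => (w p : k),
    fun p c => (((r c * a : 𝓞 k) : k) + B.b * t p c) / B.b, f, ?_, ?_, hf1, ?_, ?_⟩⟩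
  · intro p
    have h5 := congrArg (fun t : 𝓞 k => (t : k)) (hdet p)
    simp only [map_mul, map_sub, map_natCast] at h5
    field_simp
    linear_combination h5
  · intro p c c' hcc'
    rw [div_left_inj' hbk] at hcc'
    have h1 : r c * a + B.b * t p c = r c' * a + B.b * t p c' := by
      apply RingOfIntegers.coe_injective
      simpa only [map_add, map_mul, map_natCast] using hcc'
    have h2 : (r c - r c') * a ∈ B.cc * B.bb := by
      rw [mul_comm B.cc, B.mul, Ideal.mem_span_singleton]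
      exact ⟨t p c' - t p c, by linear_combination h1⟩
    have h3 := hgn _ h2
    rw [← hr c, ← hr c', Ideal.Quotient.eq]
    exact h3
  · intro p c
    funext i
    exact hf2 p c i
  · intro p h0
    obtain ⟨h1, h2⟩ := irr_field g hirr _ _ h0
    have h5 := congrArg (fun t : 𝓞 k => (t : k)) (hdet p)
    simp only [map_mul, map_sub, map_natCast] at h5
    have h1' : algebraMap (𝓞 k) k p.1.1 = 0 := h1
    have h2' : algebraMap (𝓞 k) k p.1.2 = 0 := h2
    apply hbk
    rw [← h5]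
    rw [h1', h2']
    ring

/-- INJB. -/
theorem injb (obg : ObgStmt) (hka : HkaStmt) (evs : EvsStmt) (tyi : TyiStmt) (gnl : GnlStmt)
    (bfn : BfnStmt) : InjbStmt := by
  intro k _ _ B M h Φ T η g htyp hirr hsq hfin
  have hm : mm g ≠ 0 := by
    intro h
    apply hsq 0
    rw [h]
    simp
  obtain ⟨D⟩ := exists_dat hka evs tyi gnl bfn B M h Φ T η g htyp hirr hm
  obtain ⟨E⟩ := exists_dat hka evs tyi gnl bfn B M h Φ T η (gmir g) (tyi k B M h g htyp).1
    (irr_mir g hirr) (by rw [mm_mir]; exact hm)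
  have hEm : ∀ p c, E.f p c ∈ WsetB B M h Φ T η (mm g) := by
    intro p c
    have := E.mem p c
    rw [mm_mir] at this
    exact this
  have hEeq : ∀ p c, (fun i => (E.f p c i : k)) = gact (fun j => (g j : k)) (-(p.1.1 : k))
      (-(E.y p + E.t p c * (p.1.1 : k))) (p.1.2 : k) (E.w p + E.t p c * (p.1.2 : k)) := by
    intro p c
    rw [E.eq p c, ← gact_mir]
    congr 1
    funext j
    fin_cases j <;> simp [gmir]
  have hDd : ∀ p c, (p.1.1 : k) * (D.w p + D.t p c * (p.1.2 : k)) -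
      (D.y p + D.t p c * (p.1.1 : k)) * (p.1.2 : k) = 1 := by
    intro p c
    linear_combination D.det p
  have hEd : ∀ p c, -(p.1.1 : k) * (E.w p + E.t p c * (p.1.2 : k)) -
      -(E.y p + E.t p c * (p.1.1 : k)) * (p.1.2 : k) = -1 := by
    intro p c
    linear_combination -(E.det p)
  let F : (MksB B Φ T η g ⊕ MksB B Φ T η (gmir g)) × (𝓞 k ⧸ B.bb) → WsetB B M h Φ T η (mm g) :=
    fun x => Sum.elim (fun p => ⟨_, D.mem p x.2⟩) (fun p => ⟨_, hEm p x.2⟩) x.1
  have hF : Function.Injective F := by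
    rintro ⟨p | p, c⟩ ⟨q | q, d⟩ hpq
    · have h1 : D.f p c = D.f q d := congrArg Subtype.val hpq
      have h2 : (fun i => (D.f p c i : k)) = fun i => (D.f q d i : k) := by rw [h1]
      rw [D.eq, D.eq] at h2
      obtain ⟨h3, h4, -⟩ := orb_k obg g hirr hsq _ _ _ _ _ _ _ _ (by rw [hDd]; exact one_pow _)
        (by rw [hDd]; exact one_pow _) h2
      have hpq : p = q := Subtype.ext (Prod.ext (RingOfIntegers.coe_injective h3)
        (RingOfIntegers.coe_injective h4))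
      subst hpq
      have h5 := shift_inj _ _ _ _ _ _ _ (D.ne p) (congrFun h2 1)
      rw [D.inj p c d h5]
    · exfalso
      have h1 : D.f p c = E.f q d := congrArg Subtype.val hpq
      have h2 : (fun i => (D.f p c i : k)) = fun i => (E.f q d i : k) := by rw [h1]
      rw [D.eq, hEeq] at h2
      obtain ⟨-, -, h3⟩ := orb_k obg g hirr hsq _ _ _ _ _ _ _ _ (by rw [hDd]; exact one_pow _)
        (by rw [hEd]; norm_num) h2
      rw [hDd, hEd] at h3
      have h4 : (2 : k) = 0 := by linear_combination h3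
      exact two_ne_zero h4
    · exfalso
      have h1 : E.f p c = D.f q d := congrArg Subtype.val hpq
      have h2 : (fun i => (E.f p c i : k)) = fun i => (D.f q d i : k) := by rw [h1]
      rw [D.eq, hEeq] at h2
      obtain ⟨-, -, h3⟩ := orb_k obg g hirr hsq _ _ _ _ _ _ _ _ (by rw [hEd]; norm_num)
        (by rw [hDd]; exact one_pow _) h2
      rw [hDd, hEd] at h3
      have h4 : (2 : k) = 0 := by linear_combination -h3
      exact two_ne_zero h4
    · have h1 : E.f p c = E.f q d := congrArg Subtype.val hpq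
      have h2 : (fun i => (E.f p c i : k)) = fun i => (E.f q d i : k) := by rw [h1]
      have h2' := h2
      rw [hEeq, hEeq] at h2
      obtain ⟨h3, h4, -⟩ := orb_k obg g hirr hsq _ _ _ _ _ _ _ _ (by rw [hEd]; norm_num)
        (by rw [hEd]; norm_num) h2
      have hpq : p = q := Subtype.ext (Prod.ext (RingOfIntegers.coe_injective (neg_injective h3))
        (RingOfIntegers.coe_injective h4))
      subst hpq
      rw [E.eq, E.eq] at h2'
      have h5 := shift_inj _ _ _ _ _ _ _ (E.ne p) (congrFun h2' 1)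
      rw [E.inj p c d h5]
  have : Finite (WsetB B M h Φ T η (mm g)) := hfin
  have : Finite ((MksB B Φ T η g ⊕ MksB B Φ T η (gmir g)) × (𝓞 k ⧸ B.bb)) :=
    Finite.of_injective F hF
  have : Nonempty (𝓞 k ⧸ B.bb) := ⟨0⟩
  have : Finite (MksB B Φ T η g ⊕ MksB B Φ T η (gmir g)) := Finite.prod_left (𝓞 k ⧸ B.bb)
  have : Finite (MksB B Φ T η g) := Finite.sum_left (MksB B Φ T η (gmir g))
  have : Finite (MksB B Φ T η (gmir g)) := Finite.sum_right (MksB B Φ T η g)
  have h1 := Nat.card_le_card_of_injective F hF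
  rw [Nat.card_prod, Nat.card_sum] at h1
  have h2 : Nat.card (𝓞 k ⧸ B.bb) = B.b := by
    rw [B.nrm]
    rfl
  rw [h2, mul_comm] at h1
  exact h1

end Pool.Agent.LeoD.H69
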